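import Pool.Agent.Helper30_Sph.Stmts

/-!
# SMI: Smith descent on the deleted product
-/

set_option autoImplicit false

namespace Pool.Agent.Sph.H99

open Pool.Agent.Sph

section

variable {V : Type} [LinearOrder V] [Fintype V]

/-- Chains of total degree `N` on the deleted product. -/
def Su (Γ : SimpleGraph V) (S : Finset V) (N : ℕ) (ζ : Finset V → Finset V → ZMod 2) : Prop :=
  ∀ σ τ, ζ σ τ ≠ 0 → (σ ⊆ S ∧ Γ.IsClique (σ : Set V) ∧ σ.Nonempty) ∧
    (τ ⊆ S ∧ Γ.IsClique (τ : Set V) ∧ τ.Nonempty) ∧ Disjoint σ τ ∧ σ.card + τ.card = N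

/-- The boundary, not cut. -/
def dn (ζ : Finset V → Finset V → ZMod 2) (α β : Finset V) : ZMod 2 :=
  ∑ v ∈ Finset.univ \ α, ζ (insert v α) β + ∑ v ∈ Finset.univ \ β, ζ α (insert v β)

theorem two_self (x : ZMod 2) : x + x = 0 := CharTwo.add_self_eq_zero x

theorem dsum (f : Finset V → ZMod 2) (α : Finset V) :
    ∑ v ∈ Finset.univ \ α, ∑ w ∈ Finset.univ \ insert v α, f (insert w (insert v α)) = 0 := by
  rw [Finset.sum_sigma']
  refine Finset.sum_involution (fun p _ => ⟨p.2, p.1⟩) ?_ ?_ ?_ ?_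
  · rintro ⟨v, w⟩ h
    show f (insert w (insert v α)) + f (insert v (insert w α)) = 0
    rw [Finset.insert_comm w v α]
    exact two_self _
  · rintro ⟨v, w⟩ h h0 heq
    simp only [Finset.mem_sigma, Finset.mem_sdiff, Finset.mem_univ, true_and,
      Finset.mem_insert, not_or] at h
    apply h.2.1
    have := congrArg Sigma.fst heq
    simpa using this
  · rintro ⟨v, w⟩ h
    simp only [Finset.mem_sigma, Finset.mem_sdiff, Finset.mem_univ, true_and,
      Finset.mem_insert, not_or] at h ⊢
    exact ⟨h.2.2, fun h' => h.2.1 h'.symm, h.1⟩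
  · rintro ⟨v, w⟩ h
    rfl

theorem dn_dn (η : Finset V → Finset V → ZMod 2) (α β : Finset V) : dn (dn η) α β = 0 := by
  simp only [dn, Finset.sum_add_distrib]
  have h1 := dsum (fun x => η x β) α
  have h2 := dsum (fun x => η α x) β
  have h3 : ∑ v ∈ Finset.univ \ β, ∑ w ∈ Finset.univ \ α, η (insert w α) (insert v β)
      = ∑ w ∈ Finset.univ \ α, ∑ v ∈ Finset.univ \ β, η (insert w α) (insert v β) :=
    Finset.sum_comm
  rw [h1, h2, h3, zero_add, add_zero]
  exact two_self _

theorem dn_add (ζ η : Finset V → Finset V → ZMod 2) (α β : Finset V) :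
    dn (fun a b => ζ a b + η a b) α β = dn ζ α β + dn η α β := by
  simp only [dn, Finset.sum_add_distrib]
  ring

/-- Cut boundary. -/
def dc (ζ : Finset V → Finset V → ZMod 2) (α β : Finset V) : ZMod 2 :=
  if α.Nonempty ∧ β.Nonempty then dn ζ α β else 0

theorem dn_dc (η : Finset V → Finset V → ZMod 2) (α β : Finset V) (hα : α.Nonempty)
    (hβ : β.Nonempty) : dn (dc η) α β = 0 := by
  rw [← dn_dn η α β]
  unfold dn
  congr 1
  · refine Finset.sum_congr rfl fun v _ => ?_
    have : dc η (insert v α) β = dn η (insert v α) β := by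
      simp [dc, hβ, Finset.insert_nonempty]
    rw [this]
    rfl
  · refine Finset.sum_congr rfl fun v _ => ?_
    have : dc η α (insert v β) = dn η α (insert v β) := by
      simp [dc, hα, Finset.insert_nonempty]
    rw [this]
    rfl

theorem clique_mono {Γ : SimpleGraph V} {s t : Finset V} (h : s ⊆ t)
    (ht : Γ.IsClique (t : Set V)) : Γ.IsClique (s : Set V) :=
  ht.subset (Finset.coe_subset.2 h)

theorem su_dc {Γ : SimpleGraph V} {S : Finset V} {N : ℕ} {η : Finset V → Finset V → ZMod 2}
    (h : Su Γ S (N + 1) η) : Su Γ S N (dc η) := by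
  intro σ τ hne
  have hc : σ.Nonempty ∧ τ.Nonempty := by
    by_contra hc
    exact hne (if_neg hc)
  rw [dc, if_pos hc] at hne
  obtain ⟨hσ, hτ⟩ := hc
  unfold dn at hne
  by_cases h1 : ∑ v ∈ Finset.univ \ σ, η (insert v σ) τ = 0
  · rw [h1, zero_add] at hne
    obtain ⟨v, hv, hv'⟩ := Finset.exists_ne_zero_of_sum_ne_zero hne
    obtain ⟨⟨a1, a2, a3⟩, ⟨b1, b2, b3⟩, c, e⟩ := h _ _ hv'
    have hv2 : v ∉ τ := (Finset.mem_sdiff.1 hv).2
    have hs := Finset.subset_insert v τ
    refine ⟨⟨a1, a2, hσ⟩, ⟨hs.trans b1, clique_mono hs b2, hτ⟩, c.mono_right hs, ?_⟩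
    rw [Finset.card_insert_of_notMem hv2] at e
    omega
  · obtain ⟨v, hv, hv'⟩ := Finset.exists_ne_zero_of_sum_ne_zero h1
    obtain ⟨⟨a1, a2, a3⟩, ⟨b1, b2, b3⟩, c, e⟩ := h _ _ hv'
    have hv2 : v ∉ σ := (Finset.mem_sdiff.1 hv).2
    have hs := Finset.subset_insert v σ
    refine ⟨⟨hs.trans a1, clique_mono hs a2, hσ⟩, ⟨b1, b2, hτ⟩, c.mono_left hs, ?_⟩
    rw [Finset.card_insert_of_notMem hv2] at e
    omega

theorem su_add {Γ : SimpleGraph V} {S : Finset V} {N : ℕ} {ζ η : Finset V → Finset V → ZMod 2}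
    (h : Su Γ S N ζ) (h' : Su Γ S N η) : Su Γ S N (fun a b => ζ a b + η a b) := by
  intro σ τ hne
  have hne' : ζ σ τ + η σ τ ≠ 0 := hne
  by_cases h1 : ζ σ τ = 0
  · rw [h1, zero_add] at hne'
    exact h' _ _ hne'
  · exact h _ _ h1

/-- The inductive form of (H). -/
theorem hh {Γ : SimpleGraph V} {S : Finset V}
    (hacy : ∀ σ ⊆ S, Γ.IsClique (σ : Set V) → σ.Nonempty → Acy Γ (S \ σ)) (N : ℕ) :
    ∀ (m : ℕ), m + 2 ≤ N → ∀ ζ : Finset V → Finset V → ZMod 2, Su Γ S N ζ →
      (∀ α β : Finset V, α.Nonempty → β.Nonempty → dn ζ α β = 0) →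
      (∀ σ τ, ζ σ τ ≠ 0 → N ≤ τ.card + m) →
      ∃ η, Su Γ S (N + 1) η ∧ ∀ α β : Finset V, α.Nonempty → β.Nonempty → ζ α β = dn η α β := by
  intro m
  induction m with
  | zero =>
    intro _ ζ hs _ hz
    have h0 : ∀ σ τ, ζ σ τ = 0 := by
      intro σ τ
      by_contra hne
      obtain ⟨⟨_, _, a3⟩, _, _, e⟩ := hs _ _ hne
      have := hz _ _ hne
      have h3 := a3.card_pos
      omega
    refine ⟨fun _ _ => 0, fun σ τ h => absurd rfl h, fun α β _ _ => ?_⟩
    simp [h0, dn]
  | succ m ih =>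
    intro hm ζ hs hcyc hz
    have key : ∀ σ : Finset V, ∃ y : Finset V → ZMod 2,
        (σ ⊆ S → Γ.IsClique (σ : Set V) → σ.card = m + 1 →
          Ch Γ (S \ σ) (N - (m + 1) + 1) y ∧ bd y = ζ σ) := by
      intro σ
      by_cases hσ : σ ⊆ S ∧ Γ.IsClique (σ : Set V) ∧ σ.card = m + 1
      · obtain ⟨h1, h2, h3⟩ := hσ
        have hne : σ.Nonempty := by
          rw [← Finset.card_pos]
          omega
        obtain ⟨y, hy1, hy2⟩ := hacy σ h1 h2 hne (N - (m + 1)) (ζ σ) (by
          intro T hT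
          obtain ⟨_, ⟨b1, b2, _⟩, c, e⟩ := hs _ _ hT
          refine ⟨?_, b2, by omega⟩
          intro x hx
          rw [Finset.mem_sdiff]
          exact ⟨b1 hx, fun hx' => Finset.disjoint_left.1 c hx' hx⟩) (by
          funext β
          show ∑ v ∈ Finset.univ \ β, ζ σ (insert v β) = 0
          by_cases hβ : β.Nonempty ∧ β.card = N - (m + 1) - 1
          · have h4 := hcyc σ β hne hβ.1
            unfold dn at h4
            have h5 : ∑ v ∈ Finset.univ \ σ, ζ (insert v σ) β = 0 := by
              refine Finset.sum_eq_zero fun v _ => ?_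
              by_contra hc
              have := hz _ _ hc
              omega
            rwa [h5, zero_add] at h4
          · refine Finset.sum_eq_zero fun v hv => ?_
            by_contra hc
            obtain ⟨_, _, _, e⟩ := hs _ _ hc
            have hv2 : v ∉ β := (Finset.mem_sdiff.1 hv).2
            rw [Finset.card_insert_of_notMem hv2] at e
            apply hβ
            refine ⟨?_, by omega⟩
            rw [← Finset.card_pos]
            omega)
        exact ⟨y, fun _ _ _ => ⟨hy1, hy2⟩⟩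
      · exact ⟨0, fun h1 h2 h3 => absurd ⟨h1, h2, h3⟩ hσ⟩
    choose y hy using key
    classical
    let η : Finset V → Finset V → ZMod 2 := fun σ τ =>
      if σ ⊆ S ∧ Γ.IsClique (σ : Set V) ∧ σ.card = m + 1 then y σ τ else 0
    have hη : ∀ σ τ, η σ τ ≠ 0 → (σ ⊆ S ∧ Γ.IsClique (σ : Set V) ∧ σ.card = m + 1) ∧
        y σ τ ≠ 0 := by
      intro σ τ hne
      by_cases h : σ ⊆ S ∧ Γ.IsClique (σ : Set V) ∧ σ.card = m + 1
      · refine ⟨h, ?_⟩
        simpa only [η, if_pos h] using hne
      · exact absurd (if_neg h) hne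
    have hsη : Su Γ S (N + 1) η := by
      intro σ τ hne
      obtain ⟨⟨h1, h2, h3⟩, h4⟩ := hη σ τ hne
      obtain ⟨hc, _⟩ := hy σ h1 h2 h3
      obtain ⟨d1, d2, d3⟩ := hc τ h4
      refine ⟨⟨h1, h2, ?_⟩, ⟨d1.trans Finset.sdiff_subset, d2, ?_⟩, ?_, by omega⟩
      · rw [← Finset.card_pos]
        omega
      · rw [← Finset.card_pos]
        omega
      · rw [Finset.disjoint_left]
        intro x hx hx'
        exact (Finset.mem_sdiff.1 (d1 hx')).2 hx
    obtain ⟨η', hη'1, hη'2⟩ := ih (by omega) (fun a b => ζ a b + dc η a b)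
      (su_add hs (su_dc hsη)) (by
        intro α β hα hβ
        rw [dn_add, hcyc α β hα hβ, dn_dc η α β hα hβ, add_zero]) (by
        intro σ τ hne
        obtain ⟨⟨a1, a2, a3⟩, ⟨_, _, b3⟩, _, e⟩ := su_add hs (su_dc hsη) _ _ hne
        by_contra hlt
        apply hne
        show ζ σ τ + dc η σ τ = 0
        have h5 : ∑ v ∈ Finset.univ \ σ, η (insert v σ) τ = 0 := by
          refine Finset.sum_eq_zero fun v hv => ?_
          by_contra hc
          have hv2 : v ∉ σ := (Finset.mem_sdiff.1 hv).2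
          obtain ⟨⟨_, _, h6⟩, _⟩ := hη _ _ hc
          rw [Finset.card_insert_of_notMem hv2] at h6
          omega
        have h7 : dc η σ τ = ∑ v ∈ Finset.univ \ τ, η σ (insert v τ) := by
          simp only [dc, a3, b3, and_self, if_true, dn, h5, zero_add]
        by_cases h8 : σ.card = m + 1
        · have h9 : ∑ v ∈ Finset.univ \ τ, η σ (insert v τ) = ζ σ τ := by
            have h10 := congrFun (hy σ a1 a2 h8).2 τ
            rw [← h10]
            refine Finset.sum_congr rfl fun v _ => ?_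
            show (if σ ⊆ S ∧ Γ.IsClique (σ : Set V) ∧ σ.card = m + 1 then
              y σ (insert v τ) else 0) = _
            rw [if_pos ⟨a1, a2, h8⟩]
          rw [h7, h9]
          exact two_self _
        · have h9 : ∑ v ∈ Finset.univ \ τ, η σ (insert v τ) = 0 := by
            refine Finset.sum_eq_zero fun v _ => ?_
            by_contra hc
            exact h8 (hη _ _ hc).1.2.2
          have h10 : ζ σ τ = 0 := by
            by_contra hc
            have := hz _ _ hc
            omega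
          rw [h7, h9, h10, add_zero])
    refine ⟨fun a b => η a b + η' a b, su_add hsη hη'1, fun α β hα hβ => ?_⟩
    have h1 := hη'2 α β hα hβ
    have h2 : dc η α β = dn η α β := by simp [dc, hα, hβ]
    rw [dn_add, ← h1, h2]
    have h3 := two_self (dn η α β)
    linear_combination (exp := 1) -h3

omit [Fintype V] in
theorem alt_empty_left {β : Finset V} (h : Alt ∅ β) : β = ∅ := by
  generalize ha : (∅ : Finset V) = α at h
  cases h with
  | nil => rfl
  | cons a σ τ hσ hτ h =>
    exact absurd ha.symm (Finset.insert_ne_empty _ _)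

omit [Fintype V] in
theorem alt_empty_right {α : Finset V} (h : Alt α ∅) : α.card ≤ 1 := by
  generalize hb : (∅ : Finset V) = β at h
  cases h with
  | nil => simp
  | cons a σ τ hσ hτ h =>
    subst hb
    rw [alt_empty_left h]
    simp

theorem sum_ins (F : Finset V → V → Finset V → ZMod 2) :
    ∑ α : Finset V, ∑ v ∈ Finset.univ \ α, F α v (insert v α) =
      ∑ σ : Finset V, ∑ v ∈ σ, F (σ.erase v) v σ := by
  rw [Finset.sum_sigma', Finset.sum_sigma']
  refine Finset.sum_bij' (fun p _ => (⟨insert p.2 p.1, p.2⟩ : Σ _ : Finset V, V))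
    (fun p _ => (⟨p.1.erase p.2, p.2⟩ : Σ _ : Finset V, V)) ?_ ?_ ?_ ?_ ?_
  · rintro ⟨α, v⟩ h
    simp
  · rintro ⟨σ, v⟩ h
    simp
  · rintro ⟨α, v⟩ h
    simp only [Finset.mem_sigma, Finset.mem_univ, Finset.mem_sdiff, true_and] at h
    simp [Finset.erase_insert h]
  · rintro ⟨σ, v⟩ h
    simp only [Finset.mem_sigma, Finset.mem_univ, true_and] at h
    simp [Finset.insert_erase h]
  · rintro ⟨α, v⟩ h
    simp only [Finset.mem_sigma, Finset.mem_univ, Finset.mem_sdiff, true_and] at h
    simp [Finset.erase_insert h]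

theorem dd (hthd : ThdStmt) {Γ : SimpleGraph V} {S : Finset V} {k : ℕ} (hk : 1 ≤ k)
    (hdim : ∀ T ⊆ S, Γ.IsClique (T : Set V) → T.card ≤ 2 * k + 1)
    (hacy : ∀ σ ⊆ S, Γ.IsClique (σ : Set V) → σ.Nonempty → Acy Γ (S \ σ)) :
    ∀ (j N : ℕ), 4 * k + 3 ≤ N + j → 2 * k + 2 ≤ N → ∀ ζ : Finset V → Finset V → ZMod 2,
      Su Γ S N ζ → (∀ σ τ, ζ σ τ = ζ τ σ) →
      (∀ α β : Finset V, α.Nonempty → β.Nonempty → dn ζ α β = 0) →
      (N = 2 * k + 2 → ∀ σ τ, τ.card = 1 → ζ σ τ = 0) →
      ∑ σ, ∑ τ, th σ τ * ζ σ τ = 0 := by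
  intro j
  induction j with
  | zero =>
    intro N hN _ ζ hs _ _ _
    refine Finset.sum_eq_zero fun σ _ => Finset.sum_eq_zero fun τ _ => ?_
    by_cases h : ζ σ τ = 0
    · rw [h, mul_zero]
    · obtain ⟨⟨a1, a2, _⟩, ⟨b1, b2, _⟩, _, e⟩ := hs _ _ h
      have h1 := hdim _ a1 a2
      have h2 := hdim _ b1 b2
      omega
  | succ j ih =>
    intro N hN hN2 ζ hs hsym hcyc hone
    obtain ⟨η, hη1, hη2⟩ := hh hacy N (N - 2) (by omega) ζ hs hcyc (by
      intro σ τ hne
      obtain ⟨⟨a1, a2, a3⟩, ⟨b1, b2, b3⟩, _, e⟩ := hs _ _ hne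
      have h1 := hdim _ a1 a2
      have h2 := b3.card_pos
      by_contra hlt
      have h3 : τ.card = 1 := by omega
      have h4 : N = 2 * k + 2 := by omega
      exact hne (hone h4 σ τ h3))
    have hterm : ∀ α β : Finset V, th α β * ζ α β = th α β * dn η α β := by
      intro α β
      by_cases hα : α.Nonempty
      · by_cases hβ : β.Nonempty
        · rw [hη2 α β hα hβ]
        · rw [Finset.not_nonempty_iff_eq_empty] at hβ
          subst hβ
          have h1 : ζ α ∅ = 0 := by
            by_contra hc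
            exact Finset.not_nonempty_empty (hs _ _ hc).2.1.2.2
          rw [h1, mul_zero]
          by_cases h2 : Alt α ∅
          · have h3 := alt_empty_right h2
            have h4 : dn η α ∅ = 0 := by
              unfold dn
              rw [Finset.sum_eq_zero, Finset.sum_eq_zero, add_zero]
              · intro v _
                by_contra hc
                have e := (hη1 _ _ hc).2.2.2
                have h5 : (insert v (∅ : Finset V)).card = 1 := by simp
                omega
              · intro v _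
                by_contra hc
                exact Finset.not_nonempty_empty (hη1 _ _ hc).2.1.2.2
            rw [h4, mul_zero]
          · simp [th, h2]
      · rw [Finset.not_nonempty_iff_eq_empty] at hα
        subst hα
        have h1 : ζ ∅ β = 0 := by
          by_contra hc
          exact Finset.not_nonempty_empty (hs _ _ hc).1.2.2
        rw [h1, mul_zero]
        by_cases h2 : Alt ∅ β
        · have h3 := alt_empty_left h2
          subst h3
          have h4 : dn η ∅ ∅ = 0 := by
            unfold dn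
            rw [Finset.sum_eq_zero, Finset.sum_eq_zero, add_zero]
            · intro v _
              by_contra hc
              exact Finset.not_nonempty_empty (hη1 _ _ hc).1.2.2
            · intro v _
              by_contra hc
              exact Finset.not_nonempty_empty (hη1 _ _ hc).2.1.2.2
          rw [h4, mul_zero]
        · simp [th, h2]
    have hA : ∑ α, ∑ β, th α β * ζ α β
        = ∑ σ, ∑ τ, (∑ v ∈ σ, th (σ.erase v) τ + ∑ v ∈ τ, th σ (τ.erase v)) * η σ τ := by
      have e1 : ∑ α, ∑ β, th α β * ζ α β =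
          ∑ β : Finset V, ∑ α : Finset V, ∑ v ∈ Finset.univ \ α, th α β * η (insert v α) β +
          ∑ α : Finset V, ∑ β : Finset V, ∑ v ∈ Finset.univ \ β, th α β * η α (insert v β) := by
        rw [Finset.sum_comm (s := Finset.univ) (t := Finset.univ)
          (f := fun (β : Finset V) (α : Finset V) =>
            ∑ v ∈ Finset.univ \ α, th α β * η (insert v α) β), ← Finset.sum_add_distrib]
        refine Finset.sum_congr rfl fun α _ => ?_
        rw [← Finset.sum_add_distrib]
        refine Finset.sum_congr rfl fun β _ => ?_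
        rw [hterm, dn, mul_add, Finset.mul_sum, Finset.mul_sum]
      have e2 : ∀ β : Finset V, ∑ α : Finset V, ∑ v ∈ Finset.univ \ α, th α β * η (insert v α) β
          = ∑ σ : Finset V, ∑ v ∈ σ, th (σ.erase v) β * η σ β := fun β =>
        sum_ins (fun α _ σ => th α β * η σ β)
      have e3 : ∀ α : Finset V, ∑ β : Finset V, ∑ v ∈ Finset.univ \ β, th α β * η α (insert v β)
          = ∑ τ : Finset V, ∑ v ∈ τ, th α (τ.erase v) * η α τ := fun α =>
        sum_ins (fun β _ τ => th α β * η α τ)
      rw [e1, Finset.sum_congr rfl (fun β _ => e2 β), Finset.sum_congr rfl (fun α _ => e3 α),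
        Finset.sum_comm, ← Finset.sum_add_distrib]
      refine Finset.sum_congr rfl fun σ _ => ?_
      rw [← Finset.sum_add_distrib]
      refine Finset.sum_congr rfl fun τ _ => ?_
      rw [add_mul, Finset.sum_mul, Finset.sum_mul]
    have hB : ∑ σ, ∑ τ, (∑ v ∈ σ, th (σ.erase v) τ + ∑ v ∈ τ, th σ (τ.erase v)) * η σ τ
        = ∑ σ, ∑ τ, (th σ τ + th τ σ) * η σ τ := by
      refine Finset.sum_congr rfl fun σ _ => Finset.sum_congr rfl fun τ _ => ?_
      by_cases h : η σ τ = 0
      · rw [h, mul_zero, mul_zero]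
      · have h1 := hthd V σ τ (hη1 _ _ h).2.2.1
        rw [← h1]
    have hC : ∑ σ, ∑ τ, (th σ τ + th τ σ) * η σ τ
        = ∑ σ, ∑ τ, th σ τ * (η σ τ + η τ σ) := by
      have e1 : ∑ σ, ∑ τ, (th σ τ + th τ σ) * η σ τ
          = ∑ σ, ∑ τ, th σ τ * η σ τ + ∑ τ, ∑ σ, th σ τ * η τ σ := by
        rw [← Finset.sum_add_distrib]
        refine Finset.sum_congr rfl fun σ _ => ?_
        rw [← Finset.sum_add_distrib]
        refine Finset.sum_congr rfl fun τ _ => ?_
        ring
      rw [e1, Finset.sum_comm (f := fun (τ : Finset V) (σ : Finset V) => th σ τ * η τ σ),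
        ← Finset.sum_add_distrib]
      refine Finset.sum_congr rfl fun σ _ => ?_
      rw [← Finset.sum_add_distrib]
      refine Finset.sum_congr rfl fun τ _ => ?_
      ring
    rw [hA, hB, hC]
    have hswap : Su Γ S (N + 1) (fun a b => η b a) := by
      intro σ τ hne
      obtain ⟨a, b, c, e⟩ := hη1 _ _ hne
      exact ⟨b, a, c.symm, by omega⟩
    refine ih (N + 1) (by omega) (by omega) (fun a b => η a b + η b a) (su_add hη1 hswap)
      (fun σ τ => add_comm _ _) ?_ (fun h => by omega)
    intro α β hα hβ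
    rw [dn_add]
    have h1 : dn (fun a b => η b a) α β = dn η β α := by
      unfold dn
      exact add_comm _ _
    rw [h1, ← hη2 α β hα hβ, ← hη2 β α hβ hα, hsym β α]
    exact two_self _

end

theorem smi (hthd : ThdStmt) : SmiStmt := by
  intro V _ _ Γ S k hk hdim hacy ζ hs hsym hcyc
  refine dd hthd hk hdim hacy (4 * k + 3) (2 * k + 2) (by omega) le_rfl ζ ?_ hsym ?_ ?_
  · intro σ τ hne
    obtain ⟨h1, h2, h3, h4, h5, h6, h7⟩ := hs σ τ hne
    refine ⟨⟨h1, h3, ?_⟩, ⟨h2, h4, ?_⟩, h7, by omega⟩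
    · rw [← Finset.card_pos]
      omega
    · rw [← Finset.card_pos]
      omega
  · intro α β _ _
    unfold dn
    rw [hcyc α β]
    have : ∑ v ∈ Finset.univ \ β, ζ α (insert v β) = ∑ v ∈ Finset.univ \ β, ζ (insert v β) α :=
      Finset.sum_congr rfl fun v _ => hsym _ _
    rw [this, hcyc β α, add_zero]
  · intro _ σ τ hτ
    by_contra hne
    have := (hs σ τ hne).2.2.2.2.2.1
    omega

end Pool.Agent.Sph.H99
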